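import Pool.Agent.H32.RQ.Targets

/-!
Row FIB: counting with fibres.
-/

set_option autoImplicit false

open Finset Pool.Agent.H32.RQ

namespace Pool.Agent.H68.RQ

theorem pf_FIB : T_FIB := by
  classical
  intro α hα s k X P E hE hf
  let r : (Fin 2 → Mon s → α) → (Fin 2 → {p : Mon s // p ∉ P} → α) := fun e i p => e i p.1
  have h1 : E.card ≤ k * (E.image r).card := by
    apply Finset.card_le_mul_card_image
    intro a ha
    obtain ⟨c, hc, rfl⟩ := Finset.mem_image.1 ha
    refine le_trans (Finset.card_le_card ?_) (hf c)
    intro e he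
    rw [Finset.mem_filter] at he
    refine Finset.mem_filter.2 ⟨he.1, fun i p hp => ?_⟩
    exact congrFun (congrFun he.2 i) ⟨p, hp⟩
  have h2 : (E.image r).card ≤ X.card ^ (2 * (md s - P.card)) := by
    have h3 : E.image r ⊆ Fintype.piFinset fun _ => Fintype.piFinset fun _ => X := by
      intro a ha
      obtain ⟨c, hc, rfl⟩ := Finset.mem_image.1 ha
      rw [Fintype.mem_piFinset]
      intro i
      rw [Fintype.mem_piFinset]
      intro p
      exact hE c hc i p.1
    refine (Finset.card_le_card h3).trans (le_of_eq ?_)
    have h4 : Fintype.card {p : Mon s // p ∉ P} = md s - P.card := by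
      rw [Fintype.card_of_subtype Pᶜ (fun p => Finset.mem_compl), Finset.card_compl]
    rw [Fintype.card_piFinset, Finset.prod_const, Fintype.card_piFinset, Finset.prod_const,
      Finset.card_univ, Finset.card_univ, h4, Fintype.card_fin, ← pow_mul, mul_comm]
  exact h1.trans (Nat.mul_le_mul_left k h2)

end Pool.Agent.H68.RQ
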