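import Pool.Agent.H32.RQ.Targets

/-!
Row HEN: Hensel's lemma for two quadratic forms.
-/

set_option autoImplicit false

open Finset Pool.Agent.H32.RQ

namespace Pool.Agent.H68.RQ

lemma sum_dq {R : Type} [CommRing R] {s : ℕ} (f : Mon s → R) (y h : Fin s → R) :
    ∑ j, dq f y j * h j = ∑ p : Mon s, f p * (y p.1.2 * h p.1.1 + y p.1.1 * h p.1.2) := by
  unfold dq
  simp only [Finset.sum_mul]
  rw [Finset.sum_comm]
  refine Finset.sum_congr rfl fun p _ => ?_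
  have h1 : ∀ j : Fin s, f p * ((if p.1.1 = j then y p.1.2 else 0) +
      (if p.1.2 = j then y p.1.1 else 0)) * h j =
      (if p.1.1 = j then f p * y p.1.2 * h j else 0) +
        (if p.1.2 = j then f p * y p.1.1 * h j else 0) := by
    intro j
    split_ifs <;> ring
  simp only [h1]
  rw [Finset.sum_add_distrib, Finset.sum_ite_eq, Finset.sum_ite_eq]
  simp only [Finset.mem_univ, if_true]
  ring

lemma qf_add {R : Type} [CommRing R] {s : ℕ} (f : Mon s → R) (y h : Fin s → R) :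
    qf f (fun j => y j + h j) = qf f y + ∑ j, dq f y j * h j + qf f h := by
  rw [sum_dq]
  unfold qf
  rw [← Finset.sum_add_distrib, ← Finset.sum_add_distrib]
  refine Finset.sum_congr rfl fun p _ => ?_
  ring

lemma dq_sub_dvd {s : ℕ} (f : Mon s → ℤ) (x y : Fin s → ℤ) (m : ℤ)
    (h : ∀ j, m ∣ y j - x j) (j : Fin s) : m ∣ dq f y j - dq f x j := by
  unfold dq
  rw [← Finset.sum_sub_distrib]
  refine Finset.dvd_sum fun p _ => ?_
  rw [← mul_sub]
  refine Dvd.dvd.mul_left ?_ _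
  have e : ((if p.1.1 = j then y p.1.2 else 0) + (if p.1.2 = j then y p.1.1 else 0)) -
      ((if p.1.1 = j then x p.1.2 else 0) + (if p.1.2 = j then x p.1.1 else 0)) =
      (if p.1.1 = j then y p.1.2 - x p.1.2 else 0) +
        (if p.1.2 = j then y p.1.1 - x p.1.1 else 0) := by
    split_ifs <;> ring
  rw [e]
  refine dvd_add ?_ ?_
  · split_ifs
    · exact h _
    · exact dvd_zero _
  · split_ifs
    · exact h _
    · exact dvd_zero _

lemma jm_sub_dvd {s : ℕ} (c : Fin 2 → Mon s → ℤ) (x y : Fin s → ℤ) (m : ℤ)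
    (h : ∀ j, m ∣ y j - x j) (a b : Fin s) : m ∣ jm c y a b - jm c x a b := by
  obtain ⟨u, hu⟩ := dq_sub_dvd (c 0) x y m h a
  obtain ⟨v, hv⟩ := dq_sub_dvd (c 0) x y m h b
  obtain ⟨w, hw⟩ := dq_sub_dvd (c 1) x y m h a
  obtain ⟨z, hz⟩ := dq_sub_dvd (c 1) x y m h b
  unfold jm
  rw [sub_eq_iff_eq_add] at hu hv hw hz
  rw [hu, hv, hw, hz]
  refine ⟨m * u * z + u * dq (c 1) x b + dq (c 0) x a * z - (m * v * w + v * dq (c 1) x a +
    dq (c 0) x b * w), ?_⟩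
  ring

lemma qf_dvd {s : ℕ} (f : Mon s → ℤ) (h : Fin s → ℤ) (m : ℤ) (hm : ∀ j, m ∣ h j) :
    m * m ∣ qf f h := by
  unfold qf
  refine Finset.dvd_sum fun p _ => ?_
  exact Dvd.dvd.mul_left (mul_dvd_mul (hm _) (hm _)) _

lemma hen_step {s p τ r : ℕ} {c : Fin 2 → Mon s → ℤ} {x : Fin s → ℤ} {a b : Fin s}
    (hp : p.Prime) (h1 : (p : ℤ) ^ τ ∣ jm c x a b) (h2 : ¬ (p : ℤ) ^ (τ + 1) ∣ jm c x a b)
    (y : Fin s → ℤ) (hy1 : ∀ j, j ≠ a → j ≠ b → y j = x j)
    (hy2 : ∀ j, (p : ℤ) ^ (τ + 1) ∣ y j - x j)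
    (hy3 : ∀ i, (p : ℤ) ^ (2 * τ + 1 + r) ∣ qf (c i) y) :
    ∃ z : Fin s → ℤ, (∀ j, j ≠ a → j ≠ b → z j = x j) ∧ (∀ j, (p : ℤ) ^ (τ + 1) ∣ z j - x j) ∧
      ∀ i, (p : ℤ) ^ (2 * τ + 1 + (r + 1)) ∣ qf (c i) z := by
  have hd := jm_sub_dvd c x y _ hy2 a b
  have h3 : (p : ℤ) ^ τ ∣ jm c y a b := by
    have h4 : (p : ℤ) ^ τ ∣ jm c y a b - jm c x a b := (pow_dvd_pow _ (Nat.le_succ τ)).trans hd
    have h5 := dvd_add h4 h1
    rwa [sub_add_cancel] at h5
  obtain ⟨u, hu⟩ := h3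
  have hpu : ¬ (p : ℤ) ∣ u := by
    rintro ⟨w, hw⟩
    apply h2
    have h4 : (p : ℤ) ^ (τ + 1) ∣ jm c y a b := ⟨w, by rw [hu, hw, pow_succ]; ring⟩
    have h5 := dvd_sub h4 hd
    rwa [sub_sub_cancel] at h5
  have hcop : IsCoprime (p : ℤ) u :=
    (Nat.prime_iff_prime_int.1 hp).irreducible.coprime_iff_not_dvd.2 hpu
  obtain ⟨v, u', huv⟩ := hcop
  obtain ⟨φ0, hφ0⟩ := hy3 0
  obtain ⟨φ1, hφ1⟩ := hy3 1
  set A0 := dq (c 0) y a with hA0
  set A1 := dq (c 1) y a with hA1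
  set B0 := dq (c 0) y b with hB0
  set B1 := dq (c 1) y b with hB1
  have hJ : A0 * B1 - B0 * A1 = (p : ℤ) ^ τ * u := hu
  set P : ℤ := (p : ℤ) ^ (τ + 1 + r) with hP
  set ha : ℤ := -P * u' * (B1 * φ0 - B0 * φ1) with hha
  set hb : ℤ := -P * u' * (-A1 * φ0 + A0 * φ1) with hhb
  let h : Fin s → ℤ := fun j => (if a = j then ha else 0) + (if b = j then hb else 0)
  have hsum : ∀ i, ∑ j, dq (c i) y j * h j = dq (c i) y a * ha + dq (c i) y b * hb := by
    intro i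
    have e : ∀ j, dq (c i) y j * h j = (if a = j then dq (c i) y j * ha else 0) +
        (if b = j then dq (c i) y j * hb else 0) := by
      intro j
      show dq (c i) y j * ((if a = j then ha else 0) + (if b = j then hb else 0)) = _
      split_ifs <;> ring
    simp only [e]
    rw [Finset.sum_add_distrib, Finset.sum_ite_eq, Finset.sum_ite_eq]
    simp
  have hPh : ∀ j, P ∣ h j := by
    intro j
    have ea : P ∣ ha := ⟨-u' * (B1 * φ0 - B0 * φ1), by rw [hha]; ring⟩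
    have eb : P ∣ hb := ⟨-u' * (-A1 * φ0 + A0 * φ1), by rw [hhb]; ring⟩
    show P ∣ (if a = j then ha else 0) + (if b = j then hb else 0)
    refine dvd_add ?_ ?_
    · split_ifs
      · exact ea
      · exact dvd_zero _
    · split_ifs
      · exact eb
      · exact dvd_zero _
  have hPn : P * (p : ℤ) ^ τ = (p : ℤ) ^ (2 * τ + 1 + r) := by
    rw [hP, ← pow_add]
    congr 1
    ring
  have hquad : ∀ i, (p : ℤ) ^ (2 * τ + 1 + (r + 1)) ∣ qf (c i) h := by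
    intro i
    refine dvd_trans ?_ (qf_dvd (c i) h P hPh)
    rw [hP, ← pow_add]
    exact pow_dvd_pow _ (by omega)
  refine ⟨fun j => y j + h j, ?_, ?_, ?_⟩
  · intro j ja jb
    show y j + ((if a = j then ha else 0) + (if b = j then hb else 0)) = x j
    rw [if_neg (Ne.symm ja), if_neg (Ne.symm jb), hy1 j ja jb]
    ring
  · intro j
    show (p : ℤ) ^ (τ + 1) ∣ y j + h j - x j
    have e : y j + h j - x j = (y j - x j) + h j := by ring
    rw [e]
    refine dvd_add (hy2 j) (dvd_trans ?_ (hPh j))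
    rw [hP]
    exact pow_dvd_pow _ (by omega)
  · have hfin : ∀ i φ, qf (c i) y = (p : ℤ) ^ (2 * τ + 1 + r) * φ →
        dq (c i) y a * ha + dq (c i) y b * hb = -(P * u' * ((p : ℤ) ^ τ * u) * φ) →
        (p : ℤ) ^ (2 * τ + 1 + (r + 1)) ∣ qf (c i) (fun j => y j + h j) := by
      intro i φ hφ hlin
      rw [qf_add, hsum, hφ, hlin]
      refine dvd_add ?_ (hquad i)
      refine ⟨v * φ, ?_⟩
      have e : (p : ℤ) ^ (2 * τ + 1 + (r + 1)) = (p : ℤ) ^ (2 * τ + 1 + r) * p := by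
        rw [← pow_succ]
        rfl
      rw [e]
      have e2 : P * u' * ((p : ℤ) ^ τ * u) * φ = (p : ℤ) ^ (2 * τ + 1 + r) * (u' * u) * φ := by
        rw [← hPn]
        ring
      rw [e2]
      have e3 : u' * u = 1 - v * p := by linarith
      rw [e3]
      ring
    intro i
    fin_cases i
    · refine hfin 0 φ0 hφ0 ?_
      show A0 * ha + B0 * hb = _
      rw [hha, hhb, ← hJ]
      ring
    · refine hfin 1 φ1 hφ1 ?_
      show A1 * ha + B1 * hb = _
      rw [hha, hhb, ← hJ]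
      ring

theorem pf_HEN : T_HEN := by
  intro s p τ n c x a b hp h1 h2 h3
  have key : ∀ r : ℕ, ∃ y : Fin s → ℤ, (∀ j, j ≠ a → j ≠ b → y j = x j) ∧
      (∀ j, (p : ℤ) ^ (τ + 1) ∣ y j - x j) ∧ ∀ i, (p : ℤ) ^ (2 * τ + 1 + r) ∣ qf (c i) y := by
    intro r
    induction r with
    | zero => exact ⟨x, fun _ _ _ => rfl, fun j => by rw [sub_self]; exact dvd_zero _, h3⟩
    | succ r ih =>
      obtain ⟨y, hy1, hy2, hy3⟩ := ih
      exact hen_step hp h1 h2 y hy1 hy2 hy3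
  obtain ⟨y, hy1, hy2, hy3⟩ := key n
  exact ⟨y, hy1, hy2, fun i => dvd_trans (pow_dvd_pow _ (by omega)) (hy3 i)⟩

end Pool.Agent.H68.RQ
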